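import Pool.Agent.helper13.U4.SpecD

set_option autoImplicit false

/-!
# Row u4:PA
-/

namespace Pool.Agent.U4

open Pool.Agent.UL

theorem PA_mul (q a : ℕ) (h : ℕ) (ha : a ≤ 2 * q) : (2 * q - a) * h + a * h = 2 * h * q := by
  rw [← Nat.add_mul, Nat.sub_add_cancel ha]
  ring

/-- Row PA. -/
theorem PA (h1 : PRM_stmt) : PA_stmt := by
  intro k q h v x hP fl fh P τ hτ1 hτ2 hP1 hP2 hP3
  obtain ⟨b, e, hb, he, hτ, hb0, -, hsum⟩ := h1 k q h v hP τ hτ1 hτ2
  obtain ⟨hk, hh, hq, hv⟩ := hP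
  have h4 : 4 ∣ h := by
    rw [hh]
    exact pow_dvd_pow 2 hk
  have hpos : 4 ≤ h := Nat.le_of_dvd (by rw [hh]; positivity) h4
  obtain ⟨h', rfl⟩ := h4
  have hqh : 14 * (4 * h') ≤ 2 * (4 * h') * q := by nlinarith
  have key : ∀ a, 2 ≤ a → a ≤ 11 → a ≤ 2 * q ∧ 1 ≤ 2 * q - a ∧
      (2 * q - a) * (4 * h') + a * (4 * h') = 2 * (4 * h') * q := by
    intro a ha1 ha2
    exact ⟨by omega, by omega, PA_mul q a (4 * h') (by omega)⟩
  have k1 := key (9 - b) (by omega) (by omega)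
  have k2 := key (11 - b) (by omega) (by omega)
  have s1 := hsum (9 - b) 0 k1.1 (by omega) (by omega)
  have s2 := hsum (11 - b) 0 k2.1 (by omega) (by omega)
  have e1 : b + (9 - b) - 1 = 8 := by omega
  have e2 : b + (11 - b) - 1 = 10 := by omega
  rw [e1] at s1
  rw [e2] at s2
  rw [Nat.sub_zero, Nat.add_zero] at s1 s2
  have m1 : 2 * (4 * h') ≤ (9 - b) * (4 * h') := Nat.mul_le_mul_right _ (by omega)
  have m2 : 2 * (4 * h') ≤ (11 - b) * (4 * h') := Nat.mul_le_mul_right _ (by omega)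
  have m3 : (11 - b) * (4 * h') = (9 - b) * (4 * h') + 2 * (4 * h') := by
    have : 11 - b = (9 - b) + 2 := by omega
    rw [this]
    ring
  have f1 := fl.fd (2 * q - (9 - b)) (P - 2 * (4 * h') - 4) k1.2.1 (by omega) (by omega) (by omega)
  have f2 := fl.fd (2 * q - (11 - b)) (P - 2 * (4 * h') - 4) k2.2.1 (by omega) (by omega) (by omega)
  have g1 := fh.b4 8 e (by omega) (by omega) he (by omega)
  have g2 := fh.b4 10 e (by omega) (by omega) he (by omega)
  refine ⟨P - 2 * (4 * h') - 4, 2 * (4 * h') + 4, (2 * q - (9 - b)) * (4 * h') + (4 * h' - 1),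
    8 * (4 * h') + e, (2 * q - (11 - b)) * (4 * h') + (4 * h' - 1), 10 * (4 * h') + e,
    by omega, by omega, by omega, s1, s2, by omega, by omega, by omega, by omega, f1, g1, f2, g2⟩

end Pool.Agent.U4
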